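import Pool.Agent.Lib.MP_417c68_gt_P.E.Nc4

/-!
# MP_417c68_gt, project P, module F/Base: Claim C, definitions and the two simple cases

PROOFS (text, section 5).
* `base₁`: `x (n + 1) = 0`; if `Arr x 0`, `u (x, 0) = (a x, 0) ∈ Q` (`inn_prod`) gives `a x = 0`,
  `x = 0`; go
  down from `n + 1` to `0`.  `base₂`: the same from `0` upwards.
* `dec_AB`: componentwise.  `Dgl.hyp`: `inn_grp`, `dg_sub`, `cp_dg` and `Cp.symm`, centreless by
  `nc`
  (`cen_prod`, `cp_dg`).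
* `Dgl.next`: `lk_cen` and `cen_res`, `NN_sub`, `NN_finrank`, `NN_diag` for `k = 1`.
* `Dgl.finrank_U`: `W0 pA pB Q` is `Q1 × Q2`, so `dim Q1 + dim Q2 + dim U = dim Q = dim E`
  (`finrank_lk`).
-/

noncomputable section

namespace Pool.Agent.MP417P

open Module

namespace LTS

/-- the chain condition of Claim C -/
def Chn {E : Type} [NormedAddCommGroup E] [NormedSpace ℝ E] [FiniteDimensional ℝ E] (S : LTS E)
    (Q : Submodule ℝ (E × E)) (E₁ E₂ : Submodule ℝ E) : Prop :=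
  ∀ (n : ℕ) (x : ℕ → E), x 0 ∈ E₁ → x (n + 1) ∈ E₂ → (∀ i ≤ n, Arr S Q (x i) (x (i + 1))) →
    ∀ i ≤ n + 1, x i = 0

/-- the hypothesis of Claim C -/
structure Dgl {E : Type} [NormedAddCommGroup E] [NormedSpace ℝ E] [FiniteDimensional ℝ E]
    (S : LTS E) (Q : Submodule ℝ (E × E)) : Prop where
  cen : S.cen ⊤ = ⊥
  sub : (S.prod S).Sub Q
  dim : finrank ℝ Q = finrank ℝ E
  dg : ∀ u ∈ (S.prod S).Inn, ∀ x, u.1 (x, x) ∈ Q → x = 0

section alg

variable {E : Type} [AddCommGroup E] [Module ℝ E]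

/-- the projection `(x, y) ↦ (x, 0)` -/
def pA (E : Type) [AddCommGroup E] [Module ℝ E] : (E × E) →ₗ[ℝ] (E × E) :=
  (LinearMap.inl ℝ E E).comp (LinearMap.fst ℝ E E)

/-- the projection `(x, y) ↦ (0, y)` -/
def pB (E : Type) [AddCommGroup E] [Module ℝ E] : (E × E) →ₗ[ℝ] (E × E) :=
  (LinearMap.inr ℝ E E).comp (LinearMap.snd ℝ E E)

@[simp] theorem pA_apply (x : E × E) : pA E x = (x.1, 0) := rfl

@[simp] theorem pB_apply (x : E × E) : pB E x = (0, x.2) := rfl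

/-- all `q` with `(q, 0) ∈ Q` -/
def Q1 (Q : Submodule ℝ (E × E)) : Submodule ℝ E := Q.comap (LinearMap.inl ℝ E E)

/-- all `q` with `(0, q) ∈ Q` -/
def Q2 (Q : Submodule ℝ (E × E)) : Submodule ℝ E := Q.comap (LinearMap.inr ℝ E E)

theorem mem_Q1 {Q : Submodule ℝ (E × E)} {q : E} : q ∈ Q1 Q ↔ (q, 0) ∈ Q := Iff.rfl

theorem mem_Q2 {Q : Submodule ℝ (E × E)} {q : E} : q ∈ Q2 Q ↔ (0, q) ∈ Q := Iff.rfl

theorem dec_AB (S : LTS E) : (S.prod S).Dec (pA E) (pB E) where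
  add x := by simp
  id₁ x := rfl
  id₂ x := rfl
  com x y := by
    refine LinearMap.ext fun z => ?_
    rw [prod_T, LinearMap.zero_apply]
    simp
  hom₁ x y z := by simp
  hom₂ x y z := by simp

theorem mem_W0_AB {Q : Submodule ℝ (E × E)} {w : E × E} :
    w ∈ W0 (pA E) (pB E) Q ↔ w.1 ∈ Q1 Q ∧ w.2 ∈ Q2 Q := by
  rw [W0, Submodule.mem_sup]
  constructor
  · rintro ⟨a, ⟨ha, ⟨a', rfl⟩⟩, b, ⟨hb, ⟨b', rfl⟩⟩, rfl⟩
    rw [pA_apply] at ha ⊢
    rw [pB_apply] at hb ⊢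
    rw [mem_Q1, mem_Q2]
    simpa using And.intro ha hb
  · rintro ⟨h1, h2⟩
    refine ⟨(w.1, 0), ⟨h1, ⟨w, rfl⟩⟩, (0, w.2), ⟨h2, ⟨w, rfl⟩⟩, ?_⟩
    simp

end alg

variable {E : Type} [NormedAddCommGroup E] [NormedSpace ℝ E] [FiniteDimensional ℝ E]
  {S : LTS E} {Q : Submodule ℝ (E × E)}

omit [FiniteDimensional ℝ E] in
private theorem gle_zero {k : GLE E} {x : E} (h : k.1 x = 0) : x = 0 := by
  have h1 : (k⁻¹ * k).1 x = 0 := by
    show (k⁻¹).1 (k.1 x) = 0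
    rw [h, map_zero]
  rwa [inv_mul_cancel] at h1

theorem Dgl.base₁ (h : Dgl S Q) (h1 : Q1 Q = ⊥) : Chn S Q ⊤ ⊥ := by
  have _ := h
  intro n x _ hn hA
  have key : ∀ j ≤ n + 1, x (n + 1 - j) = 0 := by
    intro j
    induction j with
    | zero => exact fun _ => by simpa using hn
    | succ j ih =>
      intro hj
      have h0 := ih (by omega)
      have e1 : n + 1 - j = n + 1 - (j + 1) + 1 := by omega
      obtain ⟨u, hu, hq⟩ := hA (n + 1 - (j + 1)) (by omega)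
      rw [← e1, h0] at hq
      obtain ⟨a, _, b, _, hab⟩ := inn_prod hu
      rw [hab] at hq
      have h2 : a.1 (x (n + 1 - (j + 1))) ∈ Q1 Q := by
        rw [mem_Q1]
        simpa using hq
      rw [h1, Submodule.mem_bot] at h2
      exact gle_zero h2
  intro i hi
  have := key (n + 1 - i) (by omega)
  rwa [show n + 1 - (n + 1 - i) = i by omega] at this

theorem Dgl.base₂ (h : Dgl S Q) (h2 : Q2 Q = ⊥) : Chn S Q ⊥ ⊤ := by
  have _ := h
  intro n x h0 _ hA i hi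
  induction i with
  | zero => simpa using h0
  | succ i ih =>
    have h0 := ih (by omega)
    obtain ⟨u, hu, hq⟩ := hA i (by omega)
    rw [h0] at hq
    obtain ⟨a, _, b, _, hab⟩ := inn_prod hu
    rw [hab] at hq
    have h3 : b.1 (x (i + 1)) ∈ Q2 Q := by
      rw [mem_Q2]
      simpa using hq
    rw [h2, Submodule.mem_bot] at h3
    exact gle_zero h3

theorem Dgl.hyp (h : Dgl S Q) : Hyp (S.prod S) (S.prod S).Inn (pA E) (pB E) (LTS.dg E) Q where
  dec := dec_AB S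
  grp := inn_grp _
  hV := dg_sub S
  hW := h.sub
  cp := (cp_dg h.dim h.dg).symm
  cen := nc _ (cen_prod S S h.cen h.cen) (cp_dg h.dim h.dg)

/-- the link part of `Q` -/
abbrev lU (S : LTS E) (Q : Submodule ℝ (E × E)) : Submodule ℝ (E × E) :=
  (S.prod S).lk (pA E) (pB E) Q

/-- the structure on the link part -/
abbrev Dgl.lS (h : Dgl S Q) : LTS (lU S Q) :=
  (S.prod S).res (lU S Q) (h.hyp.dec.lk_sub h.hyp.hW)

/-- the new relation -/
abbrev lQ (S : LTS E) (Q : Submodule ℝ (E × E)) : Submodule ℝ (lU S Q × lU S Q) :=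
  NN (pA E) (pB E) (LTS.dg E) Q (lU S Q) 1

theorem Dgl.next (h : Dgl S Q) : Dgl h.lS (lQ S Q) where
  cen := cen_res _ _ (h.hyp.dec.lk_cen h.hyp.hW h.hyp.cen)
  sub := h.hyp.NN_sub (Subgroup.one_mem _)
  dim := h.hyp.NN_finrank (Subgroup.one_mem _)
  dg _ hu _ hx := h.hyp.NN_diag (Subgroup.one_mem _) hu hx

private def prodSub (A B : Submodule ℝ E) : A.prod B ≃ₗ[ℝ] A × B where
  toFun x := (⟨x.1.1, x.2.1⟩, ⟨x.1.2, x.2.2⟩)
  invFun x := ⟨(x.1.1, x.2.1), x.1.2, x.2.2⟩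
  map_add' _ _ := rfl
  map_smul' _ _ := rfl
  left_inv _ := rfl
  right_inv _ := rfl

theorem Dgl.finrank_U (h : Dgl S Q) :
    finrank ℝ (Q1 Q) + finrank ℝ (Q2 Q) + finrank ℝ (lU S Q) = finrank ℝ E := by
  have h1 : W0 (pA E) (pB E) Q = (Q1 Q).prod (Q2 Q) := by
    ext w
    rw [mem_W0_AB, Submodule.mem_prod]
  have h2 := h.hyp.dec.finrank_lk (W := Q)
  rw [h1, (prodSub (Q1 Q) (Q2 Q)).finrank_eq, Module.finrank_prod, h.dim] at h2
  exact h2

end LTS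

end Pool.Agent.MP417P
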