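import Pool.Agent.Lib.MP_417c68_gt_P.F.Dim

/-!
# MP_417c68_gt, project P, module F/Chain: Claim C, the chains

PROOF of `Dgl.chain` (text, section 5).  `U = lU S Q`.  Given `n`, `x` with `x 0 ∈ nE1`, `x (n + 1)
  ∈ nE2` and
`u_i = (s_i, s'_i) ∈ Inn (E × E)` (`inn_prod`) with `(s_i (x i), s'_i (x (i + 1))) ∈ Q` for `i ≤
  n`.  Decompose
(`W_eq`, `mem_W0_AB`) `(s_i (x i), s'_i (x (i+1))) = (a_i, b_i) + r_i`, `a_i ∈ Q1`, `b_i ∈ Q2`,
  `r_i ∈ U`.
`x 0 = e.2 + q`, `x (n + 1) = q' + f.1` (`mem_nE1`, `mem_nE2`).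
* `mem_next`: if `t ∈ Inn (E × E)`, `t (x, x) = (a + r.1, r'.2 + b)` with `a ∈ Q1`, `b ∈ Q2`, then
  `(r, r') ∈ N(t)` (`mem_NN`, with `W0 ∋ (a, b)`), so `Arr h.lS (lQ S Q) r r'` by `Hyp.arr`.
* With `t = (s_{i+1}, s'_i)` (`inn_prod_mk`) and `x (i + 1)`: `r_{i+1} → r_i` for `i < n`.  With `t
  = (s_0, 1)`
  and `x 0`: `r_0 → e`.  With `t = (1, s'_n)` and `x (n + 1)`: `f → r_n`.
* The chain `y 0 = f`, `y i = r_{n + 1 - i}` (`1 ≤ i ≤ n + 1`), `y (n + 2) = e` from `A` to `B` is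
  zero
  (hypothesis for `n + 1`): `f = 0`, `r_i = 0` for all `i ≤ n`, `e = 0`.
* Then for `0 ≤ i < n`: `t (x (i+1), x (i+1)) = (a_{i+1}, b_i) ∈ Q`, so `x (i + 1) = 0` (`Dgl.dg`);
  the same
  with `(a_0, q)` for `x 0` and with `(q', b_n)` for `x (n + 1)`.
-/

noncomputable section

namespace Pool.Agent.MP417P

open Module

namespace LTS

variable {E : Type} [NormedAddCommGroup E] [NormedSpace ℝ E] [FiniteDimensional ℝ E]
  {S : LTS E} {Q : Submodule ℝ (E × E)}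

theorem Dgl.mem_next (h : Dgl S Q) {t : GLE (E × E)} (ht : t ∈ (S.prod S).Inn) {x a b : E}
    (ha : a ∈ Q1 Q) (hb : b ∈ Q2 Q) {r r' : lU S Q} (h1 : t.1 (x, x) = (a + r.1.1, r'.1.2 + b)) :
    Arr h.lS (lQ S Q) r r' := by
  refine h.hyp.arr ht ?_
  rw [mem_NN]
  refine ⟨(a, b), mem_W0_AB.2 ⟨ha, hb⟩, (x, x), mem_dg.2 ⟨x, rfl⟩, ?_⟩
  rw [h1, ff_apply, pA_apply, pB_apply]
  refine Prod.ext ?_ ?_
  · show r.1.1 + 0 + a = a + r.1.1
    rw [add_zero, add_comm]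
  · show 0 + r'.1.2 + b = r'.1.2 + b
    rw [zero_add]

omit [FiniteDimensional ℝ E] in
private theorem Chain_mem {a b : E} (ha : a ∈ Q1 Q) (hb : b ∈ Q2 Q) : (a, b) ∈ Q := by
  have h1 : (a, b) = ((a, 0) : E × E) + (0, b) := by
    rw [Prod.mk_add_mk, add_zero, zero_add]
  rw [h1]
  exact Q.add_mem (mem_Q1.1 ha) (mem_Q2.1 hb)

private theorem Chain_arr (h : Dgl S Q) {s s' : GLE E} (hs : s ∈ S.Inn) (hs' : s' ∈ S.Inn)
    {x a b : E} (ha : a ∈ Q1 Q) (hb : b ∈ Q2 Q) {r r' : lU S Q} (h1 : s.1 x = a + r.1.1)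
    (h2 : s'.1 x = r'.1.2 + b) : Arr h.lS (lQ S Q) r r' := by
  obtain ⟨t, ht, h3⟩ := inn_prod_mk hs hs'
  refine h.mem_next ht ha hb (x := x) ?_
  rw [h3, h1, h2]

private theorem Chain_zero (h : Dgl S Q) {s s' : GLE E} (hs : s ∈ S.Inn) (hs' : s' ∈ S.Inn)
    {x a b : E} (ha : a ∈ Q1 Q) (hb : b ∈ Q2 Q) (h1 : s.1 x = a) (h2 : s'.1 x = b) :
    x = 0 := by
  obtain ⟨t, ht, h3⟩ := inn_prod_mk hs hs'
  refine h.dg t ht x ?_
  rw [h3, h1, h2]
  exact Chain_mem ha hb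

private theorem Chain_step (h : Dgl S Q) {x x' : E} (hx : Arr S Q x x') :
    ∃ s : GLE E, ∃ s' : GLE E, ∃ a : E, ∃ b : E, ∃ r : lU S Q, s ∈ S.Inn ∧ s' ∈ S.Inn ∧
      a ∈ Q1 Q ∧ b ∈ Q2 Q ∧ s.1 x = a + r.1.1 ∧ s'.1 x' = r.1.2 + b := by
  obtain ⟨u, hu, h1⟩ := hx
  obtain ⟨s, hs, s', hs', h2⟩ := inn_prod hu
  rw [h2] at h1
  have h3 : (s.1 x, s'.1 x') ∈ W0 (pA E) (pB E) Q ⊔ (S.prod S).lk (pA E) (pB E) Q := by
    rw [h.hyp.dec.W_eq]
    exact h1
  obtain ⟨w, hw, r, hr, h4⟩ := Submodule.mem_sup.1 h3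
  obtain ⟨hw1, hw2⟩ := mem_W0_AB.1 hw
  refine ⟨s, s', w.1, w.2, ⟨r, hr⟩, hs, hs', hw1, hw2, ?_, ?_⟩
  · exact (congrArg Prod.fst h4).symm
  · rw [add_comm]
    exact (congrArg Prod.snd h4).symm

theorem Dgl.chain (h : Dgl S Q) {A B : Submodule ℝ (lU S Q)} (hg : Chn h.lS (lQ S Q) A B) :
    Chn S Q (nE1 Q (lU S Q) B) (nE2 Q (lU S Q) A) := by
  intro n x h0 hn hA
  obtain ⟨e, he, q, hq, e0⟩ := mem_nE1.1 h0
  obtain ⟨q', hq', f, hf, en⟩ := mem_nE2.1 hn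
  have hst := fun i (hi : i ≤ n) => Chain_step h (hA i hi)
  choose! s s' a b r hs hs' ha hb h1 h2 using hst
  have one : (1 : GLE E) ∈ S.Inn := S.Inn.one_mem
  have a0 : Arr h.lS (lQ S Q) (r 0) e :=
    Chain_arr h (hs 0 (Nat.zero_le n)) one (ha 0 (Nat.zero_le n)) hq (h1 0 (Nat.zero_le n)) e0
  have an : Arr h.lS (lQ S Q) f (r n) :=
    Chain_arr h one (hs' n le_rfl) hq' (hb n le_rfl) en (h2 n le_rfl)
  have ai : ∀ i, i + 1 ≤ n → Arr h.lS (lQ S Q) (r (i + 1)) (r i) := fun i hi =>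
    Chain_arr h (hs (i + 1) hi) (hs' i (by omega)) (ha (i + 1) hi) (hb i (by omega))
      (h1 (i + 1) hi) (h2 i (by omega))
  have key := hg (n + 1) (fun i => if i = 0 then f else if i ≤ n + 1 then r (n + 1 - i) else e)
    (by simpa using hf) (by simpa using he) (by
      intro i hi
      rcases Nat.eq_zero_or_pos i with rfl | hi0
      · simpa using an
      · rcases Nat.lt_or_ge i (n + 1) with hi1 | hi1
        · have e1 : n + 1 - i = (n - i) + 1 := by omega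
          have e2 : n + 1 - (i + 1) = n - i := by omega
          have h3 := ai (n - i) (by omega)
          simp only [if_neg (show ¬ i = 0 by omega), if_pos (show i ≤ n + 1 by omega),
            if_neg (show ¬ i + 1 = 0 by omega), if_pos (show i + 1 ≤ n + 1 by omega), e1, e2]
          exact h3
        · have e1 : i = n + 1 := by omega
          subst e1
          simp only [if_neg (show ¬ n + 1 = 0 by omega), if_pos (le_refl (n + 1)),
            if_neg (show ¬ n + 1 + 1 = 0 by omega), if_neg (show ¬ n + 1 + 1 ≤ n + 1 by omega),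
            Nat.sub_self]
          exact a0)
  have f0 : f = 0 := by simpa using key 0 (by omega)
  have ee : e = 0 := by simpa using key (n + 2) (by omega)
  have r0 : ∀ i ≤ n, r i = 0 := by
    intro i hi
    have h3 := key (n + 1 - i) (by omega)
    have e1 : n + 1 - (n + 1 - i) = i := by omega
    simp only [if_neg (show ¬ n + 1 - i = 0 by omega),
      if_pos (show n + 1 - i ≤ n + 1 by omega), e1] at h3
    exact h3
  have c1 : ∀ i ≤ n, (s i).1 (x i) = a i := by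
    intro i hi
    rw [h1 i hi, r0 i hi]
    exact add_zero _
  have c2 : ∀ i ≤ n, (s' i).1 (x (i + 1)) = b i := by
    intro i hi
    rw [h2 i hi, r0 i hi]
    exact zero_add _
  have c3 : (1 : GLE E).1 (x 0) = q := by
    rw [e0, ee]
    exact zero_add _
  have c4 : (1 : GLE E).1 (x (n + 1)) = q' := by
    rw [en, f0]
    exact add_zero _
  intro i hi
  rcases Nat.eq_zero_or_pos i with rfl | hi0
  · exact Chain_zero h (hs 0 (Nat.zero_le n)) one (ha 0 (Nat.zero_le n)) hq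
      (c1 0 (Nat.zero_le n)) c3
  · obtain ⟨j, rfl⟩ : ∃ j, i = j + 1 := ⟨i - 1, by omega⟩
    rcases Nat.lt_or_ge j n with hj | hj
    · exact Chain_zero h (hs (j + 1) hj) (hs' j hj.le) (ha (j + 1) hj) (hb j hj.le)
        (c1 (j + 1) hj) (c2 j hj.le)
    · have e1 : j = n := by omega
      subst e1
      exact Chain_zero h one (hs' j le_rfl) hq' (hb j le_rfl) c4 (c2 j le_rfl)

end LTS

end Pool.Agent.MP417P
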