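import Pool.Agent.Lib.MP_417c68_gt_P.F.Chain

/-!
# MP_417c68_gt, project P, module F/ClaimC: Claim C

PROOF.  Induction on `d = finrank ℝ E` over all `E`.  If `Q1 Q = ⊥` or `Q2 Q = ⊥`: `base₁`, `base₂`.
Otherwise `dim U < dim E` (`finrank_U`), the induction hypothesis for `h.next` gives `A`, `B`, and
`nE1`, `nE2` have the required properties (`nE1_sub`, .., `finrank_U`, `chain`).
-/

noncomputable section

namespace Pool.Agent.MP417P

open Module

namespace LTS

theorem claimC : ∀ (d : ℕ) (E : Type) [NormedAddCommGroup E] [NormedSpace ℝ E]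
    [FiniteDimensional ℝ E] (S : LTS E) (Q : Submodule ℝ (E × E)), finrank ℝ E = d → Dgl S Q →
    ∃ E₁ E₂ : Submodule ℝ E, S.Sub E₁ ∧ S.Sub E₂ ∧
      finrank ℝ E₁ + finrank ℝ E₂ = finrank ℝ E ∧ Chn S Q E₁ E₂ := by
  intro d
  induction d using Nat.strong_induction_on with
  | _ d ih =>
    intro E _ _ _ S Q hd h
    have hbot : S.Sub (⊥ : Submodule ℝ E) := by
      intro x hx y _ z _
      rw [(Submodule.mem_bot ℝ).1 hx, map_zero, LinearMap.zero_apply, LinearMap.zero_apply]
      exact Submodule.zero_mem _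
    have htop : S.Sub (⊤ : Submodule ℝ E) := fun _ _ _ _ _ _ => Submodule.mem_top
    by_cases h1 : Q1 Q = ⊥
    · refine ⟨⊤, ⊥, htop, hbot, ?_, h.base₁ h1⟩
      rw [finrank_top, finrank_bot, add_zero]
    · by_cases h2 : Q2 Q = ⊥
      · refine ⟨⊥, ⊤, hbot, htop, ?_, h.base₂ h2⟩
        rw [finrank_top, finrank_bot, zero_add]
      · have hU := h.finrank_U
        have h1' : 0 < finrank ℝ (Q1 Q) := by
          rcases Nat.eq_zero_or_pos (finrank ℝ (Q1 Q)) with h0 | h0
          · exact absurd (Submodule.finrank_eq_zero.1 h0) h1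
          · exact h0
        have hlt : finrank ℝ (lU S Q) < d := by omega
        obtain ⟨A, B, hA, hB, hf, hC⟩ :=
          ih (finrank ℝ (lU S Q)) hlt (lU S Q) h.lS (lQ S Q) rfl h.next
        refine ⟨nE1 Q (lU S Q) B, nE2 Q (lU S Q) A, h.nE1_sub hB, h.nE2_sub hA, ?_, h.chain hC⟩
        rw [h.nE1_finrank B, h.nE2_finrank A]
        omega

end LTS

end Pool.Agent.MP417P
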