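import Pool.Agent.Lib.MP_417c68_gt_P.F.Base

/-!
# MP_417c68_gt, project P, module F/Dim: Claim C, the new pair of subtriples

For subspaces `A`, `B` of the link part `U ≤ E × E` of `Q` (the pair `(E'_1, E'_2)` of the induction
hypothesis) `nE1 Q U B = pr₂ B + Q₂`, `nE2 Q U A = Q₁ + pr₁ A`.

PROOFS.  `pr₁`, `pr₂` are homomorphisms `S.prod S → S` (`sub_map`), `Q1`, `Q2` are subtriples, and
  for
`r ∈ U`, `q ∈ Q2`: `T r.2 q = 0` (second component of `lk_com` for `w = (0, q)`), so `sub_sup`.  `r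
  ↦ r.2` is
injective on `U` and `r.2 ∈ Q2` implies `r = 0`: `pi2_inj` (for `pB`: `pB r = (0, r.2) ∈ Q`).  So
  the sums
are direct and the dimensions add up.
-/

noncomputable section

namespace Pool.Agent.MP417P

open Module

namespace LTS

/-- the new first subspace -/
def nE1 {E : Type} [AddCommGroup E] [Module ℝ E] (Q U : Submodule ℝ (E × E))
    (B : Submodule ℝ U) : Submodule ℝ E :=
  (B.map U.subtype).map (LinearMap.snd ℝ E E) ⊔ Q2 Q

/-- the new second subspace -/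
def nE2 {E : Type} [AddCommGroup E] [Module ℝ E] (Q U : Submodule ℝ (E × E))
    (A : Submodule ℝ U) : Submodule ℝ E :=
  Q1 Q ⊔ (A.map U.subtype).map (LinearMap.fst ℝ E E)

theorem mem_nE1 {E : Type} [AddCommGroup E] [Module ℝ E] {Q U : Submodule ℝ (E × E)}
    {B : Submodule ℝ U} {x : E} : x ∈ nE1 Q U B ↔ ∃ e ∈ B, ∃ q ∈ Q2 Q, x = e.1.2 + q := by
  rw [nE1, Submodule.mem_sup]
  constructor
  · rintro ⟨y, hy, q, hq, rfl⟩
    obtain ⟨w, hw, rfl⟩ := Submodule.mem_map.1 hy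
    obtain ⟨e, he, rfl⟩ := Submodule.mem_map.1 hw
    exact ⟨e, he, q, hq, rfl⟩
  · rintro ⟨e, he, q, hq, rfl⟩
    exact ⟨e.1.2, Submodule.mem_map.2 ⟨e.1, Submodule.mem_map.2 ⟨e, he, rfl⟩, rfl⟩, q, hq, rfl⟩

theorem mem_nE2 {E : Type} [AddCommGroup E] [Module ℝ E] {Q U : Submodule ℝ (E × E)}
    {A : Submodule ℝ U} {x : E} : x ∈ nE2 Q U A ↔ ∃ q ∈ Q1 Q, ∃ f ∈ A, x = q + f.1.1 := by
  rw [nE2, Submodule.mem_sup]
  constructor
  · rintro ⟨q, hq, y, hy, rfl⟩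
    obtain ⟨w, hw, rfl⟩ := Submodule.mem_map.1 hy
    obtain ⟨e, he, rfl⟩ := Submodule.mem_map.1 hw
    exact ⟨q, hq, e, he, rfl⟩
  · rintro ⟨q, hq, e, he, rfl⟩
    exact ⟨q, hq, e.1.1, Submodule.mem_map.2 ⟨e.1, Submodule.mem_map.2 ⟨e, he, rfl⟩, rfl⟩, rfl⟩

variable {E : Type} [NormedAddCommGroup E] [NormedSpace ℝ E] [FiniteDimensional ℝ E]
  {S : LTS E} {Q : Submodule ℝ (E × E)}

private theorem Dim_com₂ (h : Dgl S Q) {r : E × E} (hr : r ∈ lU S Q) {q : E} (hq : q ∈ Q2 Q) :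
    S.T r.2 q = 0 := by
  have hw : ((0, q) : E × E) ∈ W0 (pA E) (pB E) Q := by
    rw [mem_W0_AB]
    exact ⟨(Q1 Q).zero_mem, hq⟩
  have h1 := h.hyp.dec.lk_com h.hyp.hW hr hw
  ext z
  have h2 := congrArg (fun f : (E × E) →ₗ[ℝ] (E × E) => (f (0, z)).2) h1
  exact h2

private theorem Dim_com₁ (h : Dgl S Q) {r : E × E} (hr : r ∈ lU S Q) {q : E} (hq : q ∈ Q1 Q) :
    S.T r.1 q = 0 := by
  have hw : ((q, 0) : E × E) ∈ W0 (pA E) (pB E) Q := by
    rw [mem_W0_AB]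
    exact ⟨hq, (Q2 Q).zero_mem⟩
  have h1 := h.hyp.dec.lk_com h.hyp.hW hr hw
  ext z
  have h2 := congrArg (fun f : (E × E) →ₗ[ℝ] (E × E) => (f (z, 0)).1) h1
  exact h2

theorem Dgl.nE1_sub (h : Dgl S Q) {B : Submodule ℝ (lU S Q)} (hB : h.lS.Sub B) :
    S.Sub (nE1 Q (lU S Q) B) := by
  refine S.sub_sup ?_ ?_ ?_
  · refine S.sub_map (S' := S.prod S) (fun x y z => rfl) ?_
    exact LTS.sub_map _ (S' := h.lS) (fun x y z => rfl) hB
  · intro x hx y hy z hz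
    have h1 := h.sub (0, x) hx (0, y) hy (0, z) hz
    rw [mem_Q2]
    simpa using h1
  · rintro x hx y hy
    obtain ⟨w, hw, rfl⟩ := Submodule.mem_map.1 hx
    obtain ⟨e, he, rfl⟩ := Submodule.mem_map.1 hw
    exact Dim_com₂ h e.2 hy

theorem Dgl.nE2_sub (h : Dgl S Q) {A : Submodule ℝ (lU S Q)} (hA : h.lS.Sub A) :
    S.Sub (nE2 Q (lU S Q) A) := by
  refine S.sub_sup ?_ ?_ ?_
  · intro x hx y hy z hz
    have h1 := h.sub (x, 0) hx (y, 0) hy (z, 0) hz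
    rw [mem_Q1]
    simpa using h1
  · refine S.sub_map (S' := S.prod S) (fun x y z => rfl) ?_
    exact LTS.sub_map _ (S' := h.lS) (fun x y z => rfl) hA
  · rintro y hy x hx
    obtain ⟨w, hw, rfl⟩ := Submodule.mem_map.1 hx
    obtain ⟨e, he, rfl⟩ := Submodule.mem_map.1 hw
    exact S.T_symm (Dim_com₁ h e.2 hy)

private theorem Dim_inj₂ (h : Dgl S Q) :
    Function.Injective ((LinearMap.snd ℝ E E).comp (lU S Q).subtype) := by
  rw [← LinearMap.ker_eq_bot, LinearMap.ker_eq_bot']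
  intro r hr
  refine Subtype.ext (h.hyp.dec.pi2_inj r.2 ?_)
  have h1 : r.1.2 = 0 := hr
  rw [pB_apply, h1]
  exact Q.zero_mem

private theorem Dim_inj₁ (h : Dgl S Q) :
    Function.Injective ((LinearMap.fst ℝ E E).comp (lU S Q).subtype) := by
  rw [← LinearMap.ker_eq_bot, LinearMap.ker_eq_bot']
  intro r hr
  refine Subtype.ext (h.hyp.dec.pi1_inj r.2 ?_)
  have h1 : r.1.1 = 0 := hr
  rw [pA_apply, h1]
  exact Q.zero_mem

theorem Dgl.nE1_finrank (h : Dgl S Q) (B : Submodule ℝ (lU S Q)) :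
    finrank ℝ (nE1 Q (lU S Q) B) = finrank ℝ B + finrank ℝ (Q2 Q) := by
  have hd : Disjoint ((B.map (lU S Q).subtype).map (LinearMap.snd ℝ E E)) (Q2 Q) := by
    rw [Submodule.disjoint_def]
    intro x hx hq
    obtain ⟨w, hw, rfl⟩ := Submodule.mem_map.1 hx
    obtain ⟨e, he, rfl⟩ := Submodule.mem_map.1 hw
    have h1 := h.hyp.dec.pi2_inj e.2 hq
    show e.1.2 = 0
    rw [h1]
    rfl
  have h2 := Submodule.finrank_sup_add_finrank_inf_eq
    ((B.map (lU S Q).subtype).map (LinearMap.snd ℝ E E)) (Q2 Q)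
  rw [hd.eq_bot, finrank_bot, add_zero] at h2
  rw [nE1, h2, ← Submodule.map_comp]
  congr 1
  exact (Submodule.equivMapOfInjective _ (Dim_inj₂ h) B).finrank_eq.symm

theorem Dgl.nE2_finrank (h : Dgl S Q) (A : Submodule ℝ (lU S Q)) :
    finrank ℝ (nE2 Q (lU S Q) A) = finrank ℝ (Q1 Q) + finrank ℝ A := by
  have hd : Disjoint (Q1 Q) ((A.map (lU S Q).subtype).map (LinearMap.fst ℝ E E)) := by
    rw [Submodule.disjoint_def]
    intro x hq hx
    obtain ⟨w, hw, rfl⟩ := Submodule.mem_map.1 hx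
    obtain ⟨e, he, rfl⟩ := Submodule.mem_map.1 hw
    have h1 := h.hyp.dec.pi1_inj e.2 hq
    show e.1.1 = 0
    rw [h1]
    rfl
  have h2 := Submodule.finrank_sup_add_finrank_inf_eq (Q1 Q)
    ((A.map (lU S Q).subtype).map (LinearMap.fst ℝ E E))
  rw [hd.eq_bot, finrank_bot, add_zero] at h2
  rw [nE2, h2, ← Submodule.map_comp]
  congr 1
  exact (Submodule.equivMapOfInjective _ (Dim_inj₁ h) A).finrank_eq.symm

end LTS

end Pool.Agent.MP417P
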